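import Pool.Agent.H242.GX.Stm

/-! Project GX (helper242), part WEB. -/

open Set Filter Topology
open scoped ContDiff

namespace Pool.Agent.H105.GX

open Pool.Agent.H242.GX

theorem opn (a : ℝ) : IsOpen {x : ℝ × ℝ | |x.2| < a} :=
  isOpen_lt (continuous_snd.abs) continuous_const

theorem at_of_on {a : ℝ} {f : ℝ × ℝ → ℝ} (hs : ContDiffOn ℝ ∞ f {x | |x.2| < a}) {x : ℝ × ℝ} (hx : |x.2| < a) :
    ContDiffAt ℝ ∞ f x :=
  hs.contDiffAt ((opn a).mem_nhds hx)

theorem mono {a : ℝ} {f : ℝ × ℝ → ℝ} (hs : ContDiffOn ℝ ∞ f {x | |x.2| < a})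
    (hd : ∀ θ β : ℝ, |β| < a → 0 < deriv (fun b => f (θ, b)) β) (θ : ℝ) :
    StrictMonoOn (fun b => f (θ, b)) (Ioo (-a) a) := by
  apply strictMonoOn_of_deriv_pos (convex_Ioo _ _)
  · intro b hb
    have h1 : ContDiffAt ℝ ∞ f (θ, b) := at_of_on hs (abs_lt.2 hb)
    have h2 : ContinuousAt (fun b : ℝ => (θ, b)) b := by fun_prop
    exact (ContinuousAt.comp (f := fun b : ℝ => (θ, b)) (g := f) h1.continuousAt h2).continuousWithinAt
  · intro b hb
    rw [interior_Ioo] at hb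
    exact hd θ b (abs_lt.2 hb)

theorem smooth_comp {a : ℝ} {f : ℝ × ℝ → ℝ} (hs : ContDiffOn ℝ ∞ f {x | |x.2| < a})
    {u v : ℝ × ℝ → ℝ} (hu : ContDiff ℝ ∞ u) (hv : ContDiff ℝ ∞ v) (hva : ∀ x, |v x| < a) :
    ContDiff ℝ ∞ (fun x => f (u x, v x)) := by
  rw [contDiff_iff_contDiffAt]
  intro x
  have h1 : ContDiffAt ℝ ∞ f (u x, v x) := at_of_on hs (hva x)
  exact ContDiffAt.comp (f := fun x => (u x, v x)) (g := f) x h1 (hu.prodMk hv).contDiffAt

theorem gx_WEB (hINV : S_INV) (hTAU : S_TAU) (hRAD : S_RAD) : S_WEB := by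
  intro p hp
  have ha : 0 < Real.pi / 2 := by positivity
  obtain ⟨t1, t2, t3, t4, t5, t6, t7⟩ := hTAU p hp
  obtain ⟨R, r1, r2, r3, r4, r5, r6⟩ := hRAD p hp
  obtain ⟨b, hb1, hb2, hb3, hb4⟩ := hINV _ (tau p) ha t1 t2 t3
  obtain ⟨c, hc1, hc2, hc3, hc4⟩ := hINV _ R ha r1 r3 r4
  have hb0 : ∀ θ : ℝ, b (θ, 0) = 0 := by
    intro θ
    have h := hb4 θ 0 (by rw [abs_zero]; exact ha)
    rwa [t4] at h
  have hmem : ∀ x, b x ∈ Ioo (-(Real.pi / 2)) (Real.pi / 2) := fun x => abs_lt.1 (hb2 x)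
  have h0mem : (0 : ℝ) ∈ Ioo (-(Real.pi / 2)) (Real.pi / 2) := ⟨by linarith, ha⟩
  have hbpos : ∀ θ t : ℝ, 0 < t → 0 < b (θ, t) := by
    intro θ t ht
    by_contra hcon
    push Not at hcon
    have h := (mono t1 t2 θ).monotoneOn (hmem (θ, t)) h0mem hcon
    simp only [hb3, t4] at h
    linarith
  have hbneg : ∀ θ t : ℝ, t < 0 → b (θ, t) < 0 := by
    intro θ t ht
    by_contra hcon
    push Not at hcon
    have h := (mono t1 t2 θ).monotoneOn h0mem (hmem (θ, t)) hcon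
    simp only [hb3, t4] at h
    linarith
  -- the derivative of `b` at `t = 0`
  have hbd : ∀ θ : ℝ, ∃ b' : ℝ, 0 < b' ∧ HasDerivAt (fun t => b (θ, t)) b' 0 := by
    intro θ
    have h1 : DifferentiableAt ℝ (fun t => b (θ, t)) 0 := by
      have h2 : ContDiff ℝ ∞ (fun t : ℝ => b (θ, t)) := hb1.comp (contDiff_const.prodMk contDiff_id)
      exact (h2.differentiable (by simp)).differentiableAt
    refine ⟨_, ?_, h1.hasDerivAt⟩
    have h3 : DifferentiableAt ℝ (fun β : ℝ => tau p (θ, β)) 0 := by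
      by_contra hcon
      have := t2 θ 0 (by rw [abs_zero]; exact ha)
      rw [deriv_zero_of_not_differentiableAt hcon] at this
      exact lt_irrefl _ this
    have h4 : HasDerivAt (fun β : ℝ => tau p (θ, β)) (deriv (fun β : ℝ => tau p (θ, β)) 0) (b (θ, 0)) := by
      rw [hb0]
      exact h3.hasDerivAt
    have h5 := HasDerivAt.comp (h₂ := fun β : ℝ => tau p (θ, β)) (h := fun t => b (θ, t)) (0 : ℝ) h4 h1.hasDerivAt
    have h6 : ((fun β : ℝ => tau p (θ, β)) ∘ fun t => b (θ, t)) = fun t => t := by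
      funext t
      exact hb3 θ t
    rw [h6] at h5
    have h7 := h5.unique (hasDerivAt_id (0 : ℝ))
    have h8 := t2 θ 0 (by rw [abs_zero]; exact ha)
    by_contra hcon
    push Not at hcon
    nlinarith [mul_nonneg h8.le (neg_nonneg.2 hcon)]
  refine ⟨fun x => (x.1 + b x, R (x.1 + b x, b x)), fun x => (x.1 - c x, tau p (x.1 - c x, c x)), ?_⟩
  refine
    { smX := ?_, smZ := ?_, left := ?_, right := ?_, per := ?_, axis := ?_, sgn := ?_, sgn' := ?_,
      der1 := ?_, der2 := ?_, supp := hp, rel := ?_ }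
  · exact (contDiff_fst.add hb1).prodMk (smooth_comp r1 (contDiff_fst.add hb1) hb1 hb2)
  · exact (contDiff_fst.sub hc1).prodMk (smooth_comp t1 (contDiff_fst.sub hc1) hc1 hc2)
  · rintro ⟨θ, t⟩
    simp only
    rw [hc4 _ _ (hb2 _), add_sub_cancel_right, hb3]
  · rintro ⟨φ, r⟩
    simp only
    rw [hb4 _ _ (hc2 _), sub_add_cancel, hc3]
  · intro θ t
    have h : b (θ + 2 * Real.pi, t) = b (θ, t) := by
      have h1 := hb4 (θ + 2 * Real.pi) (b (θ, t)) (hb2 _)
      rwa [t6, hb3] at h1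
    simp only
    rw [h]
    have h2 : θ + 2 * Real.pi + b (θ, t) = θ + b (θ, t) + 2 * Real.pi := by ring
    rw [h2, r6 _ _ (hb2 _)]
  · intro θ
    simp only [hb0, add_zero, r5]
  · intro θ t ht
    have h := mono r1 r3 (θ + b (θ, t)) h0mem (hmem (θ, t)) (hbpos θ t ht)
    simp only [r5] at h
    exact h
  · intro θ t ht
    have h := mono r1 r3 (θ + b (θ, t)) (hmem (θ, t)) h0mem (hbneg θ t ht)
    simp only [r5] at h
    exact h
  · intro θ
    obtain ⟨b', hb', hd⟩ := hbd θ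
    have h : HasDerivAt (fun t => θ + b (θ, t)) b' 0 := hd.const_add θ
    simp only
    rw [h.deriv]
    exact hb'
  · intro θ
    obtain ⟨b', hb', hd⟩ := hbd θ
    have h1 : ContDiffAt ℝ ∞ R (θ, 0) := at_of_on r1 (by simpa using ha)
    have h2 : HasFDerivAt R (fderiv ℝ R (θ, 0)) (θ, 0) := (h1.differentiableAt (by simp)).hasFDerivAt
    set L := fderiv ℝ R (θ, 0) with hL
    -- derivative along the first coordinate
    have h3 : L (1, 0) = 0 := by
      have h4 : HasDerivAt (fun φ : ℝ => ((φ, 0) : ℝ × ℝ)) (1, 0) θ := (hasDerivAt_id θ).prodMk (hasDerivAt_const θ 0)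
      have h5 := HasFDerivAt.comp_hasDerivAt (l := R) (f := fun φ : ℝ => ((φ, 0) : ℝ × ℝ)) θ h2 h4
      have h6 : (R ∘ fun φ : ℝ => ((φ, 0) : ℝ × ℝ)) = fun _ => 0 := by
        funext φ
        exact r5 φ
      rw [h6] at h5
      exact h5.unique (hasDerivAt_const θ (0 : ℝ))
    have h7 : L (0, 1) = deriv (fun β => R (θ, β)) 0 := by
      have h4 : HasDerivAt (fun β : ℝ => ((θ, β) : ℝ × ℝ)) (0, 1) 0 := (hasDerivAt_const (0 : ℝ) θ).prodMk (hasDerivAt_id (0 : ℝ))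
      have h5 := HasFDerivAt.comp_hasDerivAt (l := R) (f := fun β : ℝ => ((θ, β) : ℝ × ℝ)) (0 : ℝ) h2 h4
      exact h5.deriv.symm
    have h8 : HasDerivAt (fun t : ℝ => ((θ + b (θ, t), b (θ, t)) : ℝ × ℝ)) (b', b') 0 :=
      (hd.const_add θ).prodMk hd
    have h9 : HasFDerivAt R L (θ + b (θ, 0), b (θ, 0)) := by
      rw [hb0, add_zero]
      exact h2
    have h10 := HasFDerivAt.comp_hasDerivAt (l := R) (f := fun t : ℝ => ((θ + b (θ, t), b (θ, t)) : ℝ × ℝ)) (0 : ℝ) h9 h8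
    have h11 : L (b', b') = b' * deriv (fun β => R (θ, β)) 0 := by
      have h12 : ((b', b') : ℝ × ℝ) = b' • (1, 0) + b' • (0, 1) := by
        ext <;> simp
      rw [h12, map_add, map_smul, map_smul, h3, h7]
      simp
    rw [h11] at h10
    have h13 : deriv (fun t => R (θ + b (θ, t), b (θ, t))) 0 = b' * deriv (fun β => R (θ, β)) 0 := h10.deriv
    simp only
    rw [h13]
    exact mul_pos hb' (r3 θ 0 (by rw [abs_zero]; exact ha))
  · intro θ t
    simp only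
    rw [r2 _ _ (hb2 _), add_sub_cancel_right]
    have h := t7 θ (b (θ, t)) (hb2 _)
    rw [hb3] at h
    exact h.symm

end Pool.Agent.H105.GX

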